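import Pool.Agent.H29.LG.Targets

/-!
# FRM: Frobenius elements
-/

set_option autoImplicit false

open scoped Pointwise

namespace Pool.Agent.H48.LG

open NumberField Height Finset Polynomial Pool.Agent.H24.RD Pool.Agent.H23.RDD
  Pool.Agent.H29.RQ Pool.Agent.H29.SX Pool.Agent.H29.LG

section

variable {M : Type} [Field M] [NumberField M] (w : FinitePlace M)

private theorem wadd (x y : M) : w.1 (x + y) ≤ max (w.1 x) (w.1 y) := w.add_le x y

private theorem wval (x : M) : w.1 x = WithZeroMulInt.toNNReal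
    (HeightOneSpectrum.absNorm_ne_zero w.maximalIdeal) (w.maximalIdeal.valuation M x) := by
  have h1 : w.1 x = ‖FinitePlace.embedding w.maximalIdeal x‖ :=
    (FinitePlace.norm_embedding_eq w x).symm
  rw [h1, FinitePlace.norm_embedding']

private theorem wle (x : M) : w.1 x ≤ 1 ↔ w.maximalIdeal.valuation M x ≤ 1 := by
  rw [wval]
  have h := WithZeroMulInt.toNNReal_le_one_iff (m := w.maximalIdeal.valuation M x)
    (HeightOneSpectrum.one_lt_absNorm_nnreal w.maximalIdeal)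
  rw [← h]
  exact_mod_cast Iff.rfl

private theorem wlt (x : M) : w.1 x < 1 ↔ w.maximalIdeal.valuation M x < 1 := by
  rw [wval]
  have h := WithZeroMulInt.toNNReal_lt_one_iff (m := w.maximalIdeal.valuation M x)
    (HeightOneSpectrum.one_lt_absNorm_nnreal w.maximalIdeal)
  rw [← h]
  exact_mod_cast Iff.rfl

private theorem wint (a : 𝓞 M) : w.1 (a : M) ≤ 1 := by
  rw [wle]
  exact w.maximalIdeal.valuation_le_one a

private theorem wmem (a : 𝓞 M) : w.1 (a : M) < 1 ↔ a ∈ w.maximalIdeal.asIdeal := by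
  rw [wlt]
  exact w.maximalIdeal.valuation_lt_one_iff_mem a

private theorem csub (a b : 𝓞 M) : ((a - b : 𝓞 M) : M) = (a : M) - (b : M) :=
  map_sub (algebraMap (𝓞 M) M) a b

private theorem cpow (a : 𝓞 M) (n : ℕ) : ((a ^ n : 𝓞 M) : M) = (a : M) ^ n :=
  map_pow (algebraMap (𝓞 M) M) a n

private theorem approx (x : M) (hx : w.1 x ≤ 1) : ∃ a : 𝓞 M, w.1 ((a : M) - x) < 1 := by
  rw [wle] at hx
  obtain ⟨a, ha⟩ := w.maximalIdeal.exists_valuation_sub_lt_of_integer hx 1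
  refine ⟨a, ?_⟩
  rw [wlt]
  exact ha

private theorem frac (x : M) (hx : w.1 x ≤ 1) :
    ∃ a b : 𝓞 M, b ∉ w.maximalIdeal.asIdeal ∧ x * (b : M) = (a : M) := by
  rw [wle] at hx
  obtain ⟨a, ⟨b, hb⟩, h⟩ := w.maximalIdeal.exists_primeCompl_mul_eq_of_integer x hx
  exact ⟨a, b, hb, h⟩

private theorem disc' : ∃ A : ℝ, 1 < A ∧ ∀ x : M, x ≠ 0 → ∃ n : ℤ, w.1 x = A ^ n := by
  refine ⟨((Ideal.absNorm w.maximalIdeal.asIdeal : ℕ) : ℝ), ?_, ?_⟩
  · exact_mod_cast HeightOneSpectrum.one_lt_absNorm w.maximalIdeal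
  · intro x hx
    have h1 : w.1 x = ‖FinitePlace.embedding w.maximalIdeal x‖ :=
      (FinitePlace.norm_embedding_eq w x).symm
    have hx' : w.maximalIdeal.valuation M x ≠ 0 := (w.maximalIdeal.valuation M).ne_zero_iff.2 hx
    rw [h1, FinitePlace.norm_embedding', WithZeroMulInt.toNNReal_neg_apply _ hx']
    refine ⟨(WithZero.unzero hx').toAdd, ?_⟩
    push_cast
    rfl

private theorem pow_sub_pow_lt (a x : M) (ha : w.1 a ≤ 1) (hx : w.1 x ≤ 1)
    (h : w.1 (a - x) < 1) (n : ℕ) : w.1 (a ^ n - x ^ n) < 1 := by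
  induction n with
  | zero =>
    rw [pow_zero, pow_zero, sub_self, map_zero]
    exact one_pos
  | succ n ih =>
    have e : a ^ (n + 1) - x ^ (n + 1) = a * (a ^ n - x ^ n) + (a - x) * x ^ n := by ring
    rw [e]
    refine (wadd w _ _).trans_lt (max_lt ?_ ?_)
    · rw [map_mul]
      calc w.1 a * w.1 (a ^ n - x ^ n) ≤ 1 * w.1 (a ^ n - x ^ n) :=
            mul_le_mul_of_nonneg_right ha (w.1.nonneg _)
        _ < 1 := by rw [one_mul]; exact ih
    · rw [map_mul, map_pow]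
      calc w.1 (a - x) * w.1 x ^ n ≤ w.1 (a - x) * 1 :=
            mul_le_mul_of_nonneg_left (pow_le_one₀ (w.1.nonneg _) hx) (w.1.nonneg _)
        _ < 1 := by rw [mul_one]; exact h

/-- a ring automorphism which preserves the ring of the place preserves the place -/
private theorem w_inv (p : ℕ) (hp : p.Prime) (hw : w.1 (p : M) < 1) (ψ : M ≃+* M)
    (h : ∀ x, w.1 x ≤ 1 → w.1 (ψ x) ≤ 1) (x : M) : w.1 (ψ x) = w.1 x := by
  by_cases hx : x = 0
  · rw [hx, map_zero]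
  have hψx : ψ x ≠ 0 := fun h0 => hx (by
    rw [← map_zero ψ] at h0
    exact ψ.injective h0)
  have h1 : ∀ y : M, y ≠ 0 → w.1 y = 1 → w.1 (ψ y) = 1 := by
    intro y hy hy1
    have hψy : ψ y ≠ 0 := fun h0 => hy (by
      rw [← map_zero ψ] at h0
      exact ψ.injective h0)
    refine le_antisymm (h y hy1.le) ?_
    have h2 := h y⁻¹ (by rw [map_inv₀, hy1, inv_one])
    rw [map_inv₀, map_inv₀] at h2
    exact (inv_le_one₀ (w.1.pos hψy)).1 h2
  obtain ⟨A, hA, hd⟩ := disc' w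
  have hp0 : (p : M) ≠ 0 := Nat.cast_ne_zero.2 hp.ne_zero
  obtain ⟨n, hn⟩ := hd x hx
  obtain ⟨m, hm⟩ := hd (p : M) hp0
  have hm0 : m < 0 := by
    rw [hm] at hw
    by_contra hc
    exact absurd (one_le_zpow₀ hA.le (not_lt.1 hc)) (not_le.2 hw)
  obtain ⟨k, hk⟩ : ∃ k : ℕ, m = -(k : ℤ) := ⟨m.natAbs, by omega⟩
  have hk0 : k ≠ 0 := by
    rintro rfl
    omega
  have hA0 : A ≠ 0 := by
    intro h0
    rw [h0] at hA
    exact absurd hA (by norm_num)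
  have h3 : w.1 (x ^ k * (p : M) ^ n) = 1 := by
    rw [map_mul, map_pow, map_zpow₀, hn, hm, ← zpow_natCast (A ^ n) k, ← zpow_mul, ← zpow_mul,
      ← zpow_add₀ hA0, hk]
    have h4 : n * (k : ℤ) + -(k : ℤ) * n = 0 := by ring
    rw [h4, zpow_zero]
  have h5 := h1 (x ^ k * (p : M) ^ n) (mul_ne_zero (pow_ne_zero _ hx) (zpow_ne_zero _ hp0)) h3
  rw [map_mul ψ, map_pow ψ, map_zpow₀ ψ, map_natCast] at h5
  rw [map_mul, map_pow] at h3 h5
  have h6 : w.1 ((p : M) ^ n) ≠ 0 := (w.1.pos (zpow_ne_zero _ hp0)).ne'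
  have h7 : w.1 (ψ x) ^ k = w.1 x ^ k := mul_right_cancel₀ h6 (h5.trans h3.symm)
  exact (pow_left_inj₀ (w.1.nonneg _) (w.1.nonneg _) hk0).1 h7

end

theorem pf_FRM : T_FRM := by
  intro C M _ _ _ _ _ _ p f hp hf w hw hx
  have hPm : w.maximalIdeal.asIdeal.IsMaximal := w.maximalIdeal.isMaximal
  have hPp : w.maximalIdeal.asIdeal.IsPrime := hPm.isPrime
  have hfact : Fact p.Prime := ⟨hp⟩
  have hpP : (p : 𝓞 M) ∈ w.maximalIdeal.asIdeal := by
    have h0 : ((p : 𝓞 M) : M) = (p : M) := map_natCast (algebraMap (𝓞 M) M) p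
    rw [← wmem w, h0]
    exact hw
  have hfin : Finite (𝓞 M ⧸ w.maximalIdeal.asIdeal) :=
    Ring.HasFiniteQuotients.finiteQuotient w.maximalIdeal.ne_bot
  have hchar : CharP (𝓞 M ⧸ w.maximalIdeal.asIdeal) p := by
    refine (CharP.charP_iff_prime_eq_zero hp).2 ?_
    have h1 : ((p : 𝓞 M ⧸ w.maximalIdeal.asIdeal)) =
      Ideal.Quotient.mk w.maximalIdeal.asIdeal (p : 𝓞 M) := by simp
    rw [h1]
    exact Ideal.Quotient.eq_zero_iff_mem.2 hpP
  have hexp : ExpChar (𝓞 M ⧸ w.maximalIdeal.asIdeal) p := inferInstance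
  have hinv : Algebra.IsInvariant (𝓞 C) (𝓞 M) (M ≃ₐ[C] M) := inferInstance
  obtain ⟨q, hq⟩ : ∃ q : Ideal (𝓞 C), q = w.maximalIdeal.asIdeal.under (𝓞 C) := ⟨_, rfl⟩
  have hlo : w.maximalIdeal.asIdeal.LiesOver q := ⟨hq⟩
  have hσ : ∀ x : 𝓞 C ⧸ q, iterateFrobeniusEquiv (𝓞 M ⧸ w.maximalIdeal.asIdeal) p f
      (algebraMap (𝓞 C ⧸ q) (𝓞 M ⧸ w.maximalIdeal.asIdeal) x) =
      algebraMap (𝓞 C ⧸ q) (𝓞 M ⧸ w.maximalIdeal.asIdeal) x := by
    intro x
    obtain ⟨a, rfl⟩ := Ideal.Quotient.mk_surjective x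
    have h1 : algebraMap (𝓞 C ⧸ q) (𝓞 M ⧸ w.maximalIdeal.asIdeal) (Ideal.Quotient.mk q a) =
        Ideal.Quotient.mk w.maximalIdeal.asIdeal (algebraMap (𝓞 C) (𝓞 M) a) := rfl
    rw [h1, iterateFrobeniusEquiv_def, ← map_pow, Ideal.Quotient.eq, ← wmem w]
    have h2 : (((algebraMap (𝓞 C) (𝓞 M) a) ^ p ^ f - algebraMap (𝓞 C) (𝓞 M) a : 𝓞 M) : M) =
        algebraMap C M ((a : C) ^ (p ^ f) - (a : C)) := by
      rw [csub, cpow, map_sub, map_pow]
      rfl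
    rw [h2]
    exact hx a (wint w (algebraMap (𝓞 C) (𝓞 M) a))
  obtain ⟨g, hg⟩ := Ideal.Quotient.stabilizerHom_surjective (M ≃ₐ[C] M) q
    w.maximalIdeal.asIdeal (AlgEquiv.ofRingEquiv (f := iterateFrobeniusEquiv
      (𝓞 M ⧸ w.maximalIdeal.asIdeal) p f) hσ)
  obtain ⟨ψ, hψP, hψ⟩ : ∃ ψ : M ≃ₐ[C] M, ψ • w.maximalIdeal.asIdeal = w.maximalIdeal.asIdeal ∧
      ∀ a : 𝓞 M, (ψ • a : 𝓞 M) - a ^ (p ^ f) ∈ w.maximalIdeal.asIdeal := by
    refine ⟨(g : M ≃ₐ[C] M), g.2, fun a => ?_⟩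
    rw [← Ideal.Quotient.eq, map_pow]
    exact congrArg (fun e => e (Ideal.Quotient.mk w.maximalIdeal.asIdeal a)) hg
  have hfr : ∀ a : 𝓞 M, w.1 (ψ (a : M) - (a : M) ^ (p ^ f)) < 1 := by
    intro a
    have h3 := (wmem w _).2 (hψ a)
    rw [csub, cpow] at h3
    exact h3
  have hle : ∀ x, w.1 x ≤ 1 → w.1 (ψ x) ≤ 1 := by
    intro x hx1
    obtain ⟨a, b, hb, hab⟩ := frac w x hx1
    have h1 : w.1 (ψ (b : M)) = 1 := by
      have h2 : (ψ • b : 𝓞 M) ∉ w.maximalIdeal.asIdeal := by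
        intro h3
        apply hb
        rw [← hψP] at h3
        exact (Ideal.smul_mem_pointwise_smul_iff (S := w.maximalIdeal.asIdeal)).1 h3
      have h4 := wint w (ψ • b : 𝓞 M)
      exact le_antisymm h4 (not_lt.1 fun h5 => h2 ((wmem w _).1 h5))
    have h2 : w.1 (ψ (a : M)) ≤ 1 := wint w (ψ • a : 𝓞 M)
    rw [← hab, map_mul, map_mul, h1, mul_one] at h2
    exact h2
  have hw' : ∀ x, w.1 (ψ x) = w.1 x := fun x =>
    w_inv w p hp hw ψ.toRingEquiv hle x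
  refine ⟨ψ, hw', fun x hx1 => ?_⟩
  obtain ⟨a, ha⟩ := approx w x hx1
  have ha1 := wint w a
  have e : ψ x - x ^ (p ^ f) = ψ (x - a) +
      ((ψ (a : M) - (a : M) ^ (p ^ f)) + ((a : M) ^ (p ^ f) - x ^ (p ^ f))) := by
    rw [map_sub]
    ring
  rw [e]
  refine (wadd w _ _).trans_lt (max_lt ?_ ((wadd w _ _).trans_lt (max_lt (hfr a) ?_)))
  · rw [hw', ← map_neg_eq_map w.1, neg_sub]
    exact ha
  · exact pow_sub_pow_lt w _ _ ha1 hx1 ha _

end Pool.Agent.H48.LG
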